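import Pool.Agent.Helper52.Thin.Final

set_option autoImplicit false

namespace Pool.Agent.Results.MP_12a1af_nt.BasisPoissonTails

/-- `rep A n` is the number of ordered pairs `(a, b)` in `A × A` with `a + b = n`. -/
noncomputable def rep (A : Set ℕ) (n : ℕ) : ℕ :=
  ({p : ℕ × ℕ | p.1 ∈ A ∧ p.2 ∈ A ∧ p.1 + p.2 = n} : Set (ℕ × ℕ)).ncard

/-- There is a set `A` of natural numbers with `A + A = ℕ` such that
* `rep A n = O(log n / log log n)`,
* for all `N` and all `u ≥ 1`, at most `C * N * exp (-c u log u)` of the integers `n < N` have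
  `rep A n ≥ u` (a tail of Poisson type),
* in particular all exponential moments of `rep A` are bounded: for every real `lam` the sum of
  `exp (lam * rep A n)` over `n < N` is `O(N)`. -/
theorem result :
    ∃ A : Set ℕ,
      (∀ n : ℕ, ∃ a ∈ A, ∃ b ∈ A, a + b = n) ∧
      (∃ C : ℝ, ∀ᶠ n : ℕ in Filter.atTop,
        (rep A n : ℝ) ≤ C * (Real.log n / Real.log (Real.log n))) ∧
      (∃ c C : ℝ, 0 < c ∧ ∀ N u : ℕ, 1 ≤ u →
        (((Finset.range N).filter (fun n => u ≤ rep A n)).card : ℝ)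
          ≤ C * N * Real.exp (-(c * u * Real.log u))) ∧
      (∀ lam : ℝ, ∃ C : ℝ, ∀ N : ℕ,
        ∑ n ∈ Finset.range N, Real.exp (lam * rep A n) ≤ C * N) :=
  Pool.Agent.Helper52.Thin.tail_basis

end Pool.Agent.Results.MP_12a1af_nt.BasisPoissonTails
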